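import Pool.Agent.helper15.XE.SpecL
import Pool.Agent.helper85.BVP.Boxes

set_option autoImplicit false

namespace Pool.Agent.XE

open Finset ArithmeticFunction
open Pool.Agent.EC (tri TL wt mt Adm edg mnf tI tII tyI cvl KK yN UN rst)
open Pool.Agent.CH (Win rgh dl eU Mo ClP ClB)
open Pool.Agent.helper85.BVP (trunc beta Mr Zr)

private theorem VID_big (k : ℕ) : ∃ N₀ : ℕ, ∀ N : ℕ, N₀ ≤ N → 4 * Real.log N ^ k ≤ (N : ℝ) := by
  have h1 := (Real.isLittleO_pow_log_id_atTop (n := k)).bound (show (0 : ℝ) < 1 / 4 by norm_num)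
  have h2 := tendsto_natCast_atTop_atTop (R := ℝ) |>.eventually h1
  obtain ⟨N₀, h3⟩ := Filter.eventually_atTop.1 h2
  refine ⟨N₀ + 1, fun N hN => ?_⟩
  have h4 := h3 N (by omega)
  have hN1 : (1 : ℝ) ≤ N := by exact_mod_cast (by omega : 1 ≤ N)
  rw [Real.norm_of_nonneg (pow_nonneg (Real.log_nonneg hN1) k), id,
    Real.norm_of_nonneg (by linarith)] at h4
  linarith

/-- divisors of rough numbers are rough -/
private theorem VID_rgh (y : ℝ) (j : ℕ) (hj : rgh y j) (w : ℕ × ℕ) (hw : w ∈ j.divisorsAntidiagonal) :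
    rgh y w.1 ∧ rgh y w.2 := by
  obtain ⟨h1, h2⟩ := Nat.mem_divisorsAntidiagonal.1 hw
  have h3 : w.1 ≠ 0 := by
    intro h
    rw [h, zero_mul] at h1
    exact h2 h1.symm
  have h4 : w.2 ≠ 0 := by
    intro h
    rw [h, mul_zero] at h1
    exact h2 h1.symm
  exact ⟨⟨h3, fun p hp hd => hj.2 p hp (h1 ▸ hd.mul_right _)⟩,
    ⟨h4, fun p hp hd => hj.2 p hp (h1 ▸ hd.mul_left _)⟩⟩

private theorem VID_rgh' (y : ℝ) (j : ℕ) (w : ℕ × ℕ) (hw : w ∈ j.divisorsAntidiagonal)
    (h1 : rgh y w.1) (h2 : rgh y w.2) : rgh y j := by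
  obtain ⟨h3, h4⟩ := Nat.mem_divisorsAntidiagonal.1 hw
  refine ⟨h4, fun p hp hd => ?_⟩
  rw [← h3] at hd
  rcases (hp.dvd_mul).1 hd with h5 | h5
  · exact h1.2 p hp h5
  · exact h2.2 p hp h5

theorem VID : VID_stmt := by
  classical
  intro C
  obtain ⟨N₀, hN₀⟩ := VID_big (2 * C)
  refine ⟨N₀ + 1, fun N hN j hj hj64 => ?_⟩
  have hbig := hN₀ N (by omega)
  have hN1 : 1 ≤ N := by omega
  have hN1r : (1 : ℝ) ≤ N := by exact_mod_cast hN1
  have hL0 : 0 ≤ Real.log N := Real.log_nonneg hN1r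
  set U := UN C N with hU
  have hUr : (U : ℝ) ≤ (N : ℝ) * Real.log N ^ C := Nat.floor_le (by positivity)
  have hU2 : U ^ 2 < j := by
    have h2 : (U : ℝ) ^ 2 ≤ (N : ℝ) ^ 3 := by
      calc (U : ℝ) ^ 2 ≤ ((N : ℝ) * Real.log N ^ C) ^ 2 := pow_le_pow_left₀ (by positivity) hUr 2
        _ = (N : ℝ) ^ 2 * Real.log N ^ (2 * C) := by rw [mul_pow, ← pow_mul, mul_comm C 2]
        _ ≤ (N : ℝ) ^ 2 * N := by
            apply mul_le_mul_of_nonneg_left _ (by positivity)
            have : 0 ≤ Real.log N ^ (2 * C) := by positivity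
            linarith
        _ = (N : ℝ) ^ 3 := by ring
    have h3 : U ^ 2 ≤ N ^ 3 := by exact_mod_cast h2
    omega
  have hUj : U < j := lt_of_le_of_lt (Nat.le_self_pow (by norm_num) U) hU2
  have hj0 : j ≠ 0 := by omega
  by_cases hr : rgh (yN N) j
  · -- rough j
    have hd := VID_rgh (yN N) j hr
    have e1 : tyI N U 1 (fun d => ((moebius d : ℤ) : ℝ)) j = (trunc Mr U * ArithmeticFunction.log) j := by
      unfold tyI
      rw [if_pos hr, mul_apply, Nat.sum_divisorsAntidiagonal
        (fun a b => trunc Mr U a * ArithmeticFunction.log b), Finset.sum_filter]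
      refine Finset.sum_congr rfl fun d _ => ?_
      rw [Pool.Agent.helper85.BVP.trunc_apply]
      split_ifs
      · rw [pow_one, log_apply]
        rfl
      · rw [zero_mul]
    have e2 : tyI N U 0 (fun d => eU U d) j =
        ∑ w ∈ j.divisorsAntidiagonal, if w.1 ≤ U then eU U w.1 else 0 := by
      unfold tyI
      rw [if_pos hr, Nat.sum_divisorsAntidiagonal (fun a _ => if a ≤ U then eU U a else 0),
        Finset.sum_filter]
      refine Finset.sum_congr rfl fun d _ => ?_
      rw [pow_zero, mul_one]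
    have e3 : edg C N j = - ∑ w ∈ j.divisorsAntidiagonal, if w.2 ≤ U then eU U w.1 else 0 := by
      unfold edg
      rw [if_pos hr, Nat.sum_divisorsAntidiagonal' (fun a c => if c ≤ U then eU U a else 0),
        Finset.sum_filter]
    have e4 : cvl (rst N U fun b => vonMangoldt b) (rst N U fun k => beta U k) j =
        ((vonMangoldt - trunc vonMangoldt U) * beta U) j := by
      unfold cvl
      rw [mul_apply]
      refine Finset.sum_congr rfl fun w hw => ?_
      unfold rst
      have h5 : (vonMangoldt - trunc vonMangoldt U) w.1 = if U < w.1 then vonMangoldt w.1 else 0 := by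
        show vonMangoldt w.1 - trunc vonMangoldt U w.1 = _
        rw [Pool.Agent.helper85.BVP.trunc_apply]
        by_cases h6 : w.1 ≤ U
        · rw [if_pos h6, if_neg (by omega), sub_self]
        · rw [if_neg h6, if_pos (by omega), sub_zero]
      rw [h5]
      have h7 : (if rgh (yN N) w.1 ∧ U < w.1 then vonMangoldt w.1 else 0) =
          if U < w.1 then vonMangoldt w.1 else 0 := by
        by_cases h6 : U < w.1
        · rw [if_pos h6, if_pos ⟨(hd w hw).1, h6⟩]
        · rw [if_neg h6, if_neg fun h => h6 h.2]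
      have h8 : (if rgh (yN N) w.2 ∧ U < w.2 then beta U w.2 else 0) = beta U w.2 := by
        by_cases h6 : U < w.2
        · rw [if_pos ⟨(hd w hw).2, h6⟩]
        · rw [if_neg fun h => h6 h.2, Pool.Agent.helper85.BVP.beta_eq_zero U w.2 (by omega)]
      show (if rgh (yN N) w.1 ∧ U < w.1 then vonMangoldt w.1 else 0) *
        (if rgh (yN N) w.2 ∧ U < w.2 then beta U w.2 else 0) = _
      rw [h7, h8]
    have e5 : cvl (rst N U fun k => eU U k) (rst N U fun _ => 1) j =
        ∑ w ∈ j.divisorsAntidiagonal, if U < w.1 ∧ U < w.2 then eU U w.1 else 0 := by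
      unfold cvl
      refine Finset.sum_congr rfl fun w hw => ?_
      show (if rgh (yN N) w.1 ∧ U < w.1 then eU U w.1 else 0) *
        (if rgh (yN N) w.2 ∧ U < w.2 then (1 : ℝ) else 0) = _
      by_cases h6 : U < w.1
      · by_cases h7 : U < w.2
        · rw [if_pos ⟨(hd w hw).1, h6⟩, if_pos ⟨(hd w hw).2, h7⟩, if_pos ⟨h6, h7⟩, mul_one]
        · rw [if_neg (fun h => h7 h.2 : ¬ (rgh (yN N) w.2 ∧ U < w.2)),
            if_neg (fun h => h7 h.2 : ¬ (U < w.1 ∧ U < w.2)), mul_zero]
      · rw [if_neg (fun h => h6 h.2 : ¬ (rgh (yN N) w.1 ∧ U < w.1)),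
          if_neg (fun h => h6 h.1 : ¬ (U < w.1 ∧ U < w.2)), zero_mul]
    have e6 : (trunc Mr U * (trunc vonMangoldt U * Zr)) j =
        (∑ w ∈ j.divisorsAntidiagonal, if w.1 ≤ U then eU U w.1 else 0) +
        (∑ w ∈ j.divisorsAntidiagonal, if w.2 ≤ U then eU U w.1 else 0) +
        ∑ w ∈ j.divisorsAntidiagonal, if U < w.1 ∧ U < w.2 then eU U w.1 else 0 := by
      rw [← mul_assoc, mul_apply, ← Finset.sum_add_distrib, ← Finset.sum_add_distrib]
      refine Finset.sum_congr rfl fun w hw => ?_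
      obtain ⟨h6, -⟩ := Nat.mem_divisorsAntidiagonal.1 hw
      have h7 : w.2 ≠ 0 := (hd w hw).2.1
      have h8 : Zr w.2 = 1 := by
        rw [natCoe_apply, zeta_apply_ne h7, Nat.cast_one]
      show eU U w.1 * Zr w.2 = _
      rw [h8, mul_one]
      by_cases h9 : w.1 ≤ U
      · have h10 : ¬ w.2 ≤ U := by
          intro h
          have : w.1 * w.2 ≤ U * U := Nat.mul_le_mul h9 h
          rw [h6] at this
          nlinarith
        rw [if_pos h9, if_neg h10, if_neg fun h => absurd h.1 (by omega)]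
        ring
      · by_cases h10 : w.2 ≤ U
        · rw [if_neg h9, if_pos h10, if_neg fun h => absurd h.2 (by omega)]
          ring
        · rw [if_neg h9, if_neg h10, if_pos ⟨by omega, by omega⟩]
          ring
    have e7 := congrArg (fun f : ArithmeticFunction ℝ => f j) (Pool.Agent.helper85.BVP.vaughan U U)
    have e8 : vonMangoldt j = trunc vonMangoldt U j + (trunc Mr U * ArithmeticFunction.log) j -
        (trunc Mr U * (trunc vonMangoldt U * Zr)) j + ((vonMangoldt - trunc vonMangoldt U) * beta U) j := e7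
    have e9 : trunc vonMangoldt U j = 0 := by
      rw [Pool.Agent.helper85.BVP.trunc_apply, if_neg (by omega)]
    unfold mnf tI tII
    rw [if_pos hr, ← hU, e1, e2, e3, e4, e5, e8, e9, e6]
    ring
  · -- not rough
    have e1 : cvl (rst N U fun b => vonMangoldt b) (rst N U fun k => beta U k) j = 0 := by
      refine Finset.sum_eq_zero fun w hw => ?_
      show (if rgh (yN N) w.1 ∧ U < w.1 then vonMangoldt w.1 else 0) *
        (if rgh (yN N) w.2 ∧ U < w.2 then beta U w.2 else 0) = _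
      by_cases h6 : rgh (yN N) w.1 ∧ U < w.1
      · have h7 : ¬ (rgh (yN N) w.2 ∧ U < w.2) := fun h => hr (VID_rgh' _ j w hw h6.1 h.1)
        rw [if_neg h7, mul_zero]
      · rw [if_neg h6, zero_mul]
    have e2 : cvl (rst N U fun k => eU U k) (rst N U fun _ => 1) j = 0 := by
      refine Finset.sum_eq_zero fun w hw => ?_
      show (if rgh (yN N) w.1 ∧ U < w.1 then eU U w.1 else 0) *
        (if rgh (yN N) w.2 ∧ U < w.2 then (1 : ℝ) else 0) = _
      by_cases h6 : rgh (yN N) w.1 ∧ U < w.1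
      · have h7 : ¬ (rgh (yN N) w.2 ∧ U < w.2) := fun h => hr (VID_rgh' _ j w hw h6.1 h.1)
        rw [if_neg h7, mul_zero]
      · rw [if_neg h6, zero_mul]
    unfold mnf tI tII edg tyI
    rw [if_neg hr, if_neg hr, if_neg hr, if_neg hr, ← hU, e1, e2]
    norm_num

end Pool.Agent.XE
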